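import Pool.Agent.SSC3.Main

set_option autoImplicit false
open MeasureTheory ProbabilityTheory

namespace Pool.Agent.Results.MP_119458_pr.PlaneNegative

/-- The standard simplex conjecture for three parts in the plane and every correlation `ρ ∈ [-1,0]`:
every partition of `ℝ²` into three Borel sets (no condition on their Gaussian measures) has noise
stability at `ρ` at least that of any standard simplex partition. -/
theorem result :
    ∀ ρ : ℝ, -1 ≤ ρ → ρ ≤ 0 →
      ∀ (A B : Fin 3 → Set (Fin 2 → ℝ)) (a : Fin 3 → Fin 2 → ℝ),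
        (∀ i, MeasurableSet (A i)) →
        (∀ x : Fin 2 → ℝ, ∃! i, x ∈ A i) →
        (∀ i, ∑ k, a i k * a i k = 1) →
        (∀ i j, i ≠ j → ∑ k, a i k * a j k = -1 / ((3 : ℝ) - 1)) →
        (∀ i, MeasurableSet (B i)) →
        (∀ x : Fin 2 → ℝ, ∃! i, x ∈ B i) →
        (∀ i, {x : Fin 2 → ℝ | ∀ j, j ≠ i → ∑ k, a j k * x k < ∑ k, a i k * x k} ⊆ B i) →
        ∑ i, ((Measure.pi (fun _ : Fin 2 => gaussianReal 0 1)).prod
                (Measure.pi (fun _ : Fin 2 => gaussianReal 0 1)))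
              {p : (Fin 2 → ℝ) × (Fin 2 → ℝ) |
                p.1 ∈ B i ∧ ρ • p.1 + Real.sqrt (1 - ρ ^ 2) • p.2 ∈ B i}
          ≤
        ∑ i, ((Measure.pi (fun _ : Fin 2 => gaussianReal 0 1)).prod
                (Measure.pi (fun _ : Fin 2 => gaussianReal 0 1)))
              {p : (Fin 2 → ℝ) × (Fin 2 → ℝ) |
                p.1 ∈ A i ∧ ρ • p.1 + Real.sqrt (1 - ρ ^ 2) • p.2 ∈ A i} := by
  intro ρ h1 h2 A B a hAm hA ha hab hBm hB hBs
  exact Pool.Agent.SSC3.main ρ h1 h2 A B a hAm hA ha hab hBm hB hBs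

end Pool.Agent.Results.MP_119458_pr.PlaneNegative
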