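import Pool.Agent.SSCP.M1

set_option autoImplicit false
open MeasureTheory ProbabilityTheory

namespace Pool.Agent.Results.MP_119458_pr.PositiveHalf

/-- The standard simplex conjecture (Q1, positive correlations) for three parts in every dimension
`n ≥ 2` and every correlation `ρ ∈ [0, 1/2]`: every partition of `ℝⁿ` into three Borel sets of Gaussian
measure `1/3` has noise stability at `ρ` at most that of any standard simplex partition. -/
theorem result :
    ∀ n : ℕ, 2 ≤ n → ∀ ρ : ℝ, 0 ≤ ρ → ρ ≤ 1 / 2 →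
      ∀ (A B : Fin 3 → Set (Fin n → ℝ)) (a : Fin 3 → Fin n → ℝ),
        (∀ i, MeasurableSet (A i)) →
        (∀ x : Fin n → ℝ, ∃! i, x ∈ A i) →
        (∀ i, Measure.pi (fun _ : Fin n => gaussianReal 0 1) (A i) = ((3 : ℕ) : ENNReal)⁻¹) →
        (∀ i, ∑ k, a i k * a i k = 1) →
        (∀ i j, i ≠ j → ∑ k, a i k * a j k = -1 / ((3 : ℝ) - 1)) →
        (∀ i, MeasurableSet (B i)) →
        (∀ x : Fin n → ℝ, ∃! i, x ∈ B i) →
        (∀ i, {x : Fin n → ℝ | ∀ j, j ≠ i → ∑ k, a j k * x k < ∑ k, a i k * x k} ⊆ B i) →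
        ∑ i, ((Measure.pi (fun _ : Fin n => gaussianReal 0 1)).prod
                (Measure.pi (fun _ : Fin n => gaussianReal 0 1)))
              {p : (Fin n → ℝ) × (Fin n → ℝ) |
                p.1 ∈ A i ∧ ρ • p.1 + Real.sqrt (1 - ρ ^ 2) • p.2 ∈ A i}
          ≤
        ∑ i, ((Measure.pi (fun _ : Fin n => gaussianReal 0 1)).prod
                (Measure.pi (fun _ : Fin n => gaussianReal 0 1)))
              {p : (Fin n → ℝ) × (Fin n → ℝ) |
                p.1 ∈ B i ∧ ρ • p.1 + Real.sqrt (1 - ρ ^ 2) • p.2 ∈ B i} := by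
  intro n hn ρ h1 h2 A B a hAm hA hAe ha hab hBm hB hBs
  exact Pool.Agent.SSCP.main_pos n hn ρ h1 h2 A B a hAm hA hAe ha hab hBm hB hBs

end Pool.Agent.Results.MP_119458_pr.PositiveHalf
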