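import Pool.Agent.SSQ.F3

set_option autoImplicit false
open MeasureTheory ProbabilityTheory

namespace Pool.Agent.Results.MP_119458_pr.SmallCorrelation

/-- The standard simplex conjecture (both questions) for EVERY number `q ≥ 3` of parts, EVERY dimension
`n ≥ q - 1` and all small correlations of both signs: for every `q` there is `ρ_q > 0` (independent of the
dimension) such that for `|ρ| ≤ ρ_q` the standard simplex partition maximises (`ρ ≥ 0`) or minimises (`ρ ≤ 0`) the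
noise stability among all partitions of `ℝⁿ` into `q` Borel sets of Gaussian measure `1/q`. -/
theorem result :
    ∀ q : ℕ, 3 ≤ q → ∃ ρq : ℝ, 0 < ρq ∧ ∀ n : ℕ, q ≤ n + 1 → ∀ ρ : ℝ, -ρq ≤ ρ → ρ ≤ ρq →
      ∀ (A B : Fin q → Set (Fin n → ℝ)) (a : Fin q → Fin n → ℝ),
        (∀ i, MeasurableSet (A i)) →
        (∀ x : Fin n → ℝ, ∃! i, x ∈ A i) →
        (∀ i, Measure.pi (fun _ : Fin n => gaussianReal 0 1) (A i) = (q : ENNReal)⁻¹) →
        (∀ i, ∑ k, a i k * a i k = 1) →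
        (∀ i j, i ≠ j → ∑ k, a i k * a j k = -1 / ((q : ℝ) - 1)) →
        (∀ i, MeasurableSet (B i)) →
        (∀ x : Fin n → ℝ, ∃! i, x ∈ B i) →
        (∀ i, {x : Fin n → ℝ | ∀ j, j ≠ i → ∑ k, a j k * x k < ∑ k, a i k * x k} ⊆ B i) →
        (0 ≤ ρ →
          ∑ i, ((Measure.pi (fun _ : Fin n => gaussianReal 0 1)).prod
                  (Measure.pi (fun _ : Fin n => gaussianReal 0 1)))
                {p : (Fin n → ℝ) × (Fin n → ℝ) |
                  p.1 ∈ A i ∧ ρ • p.1 + Real.sqrt (1 - ρ ^ 2) • p.2 ∈ A i}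
            ≤
          ∑ i, ((Measure.pi (fun _ : Fin n => gaussianReal 0 1)).prod
                  (Measure.pi (fun _ : Fin n => gaussianReal 0 1)))
                {p : (Fin n → ℝ) × (Fin n → ℝ) |
                  p.1 ∈ B i ∧ ρ • p.1 + Real.sqrt (1 - ρ ^ 2) • p.2 ∈ B i}) ∧
        (ρ ≤ 0 →
          ∑ i, ((Measure.pi (fun _ : Fin n => gaussianReal 0 1)).prod
                  (Measure.pi (fun _ : Fin n => gaussianReal 0 1)))
                {p : (Fin n → ℝ) × (Fin n → ℝ) |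
                  p.1 ∈ B i ∧ ρ • p.1 + Real.sqrt (1 - ρ ^ 2) • p.2 ∈ B i}
            ≤
          ∑ i, ((Measure.pi (fun _ : Fin n => gaussianReal 0 1)).prod
                  (Measure.pi (fun _ : Fin n => gaussianReal 0 1)))
                {p : (Fin n → ℝ) × (Fin n → ℝ) |
                  p.1 ∈ A i ∧ ρ • p.1 + Real.sqrt (1 - ρ ^ 2) • p.2 ∈ A i}) := by
  intro q hq
  obtain ⟨ρq, h0, _, h⟩ := Pool.Agent.SSQ.main_all q hq
  refine ⟨ρq, h0, fun n hn ρ h1 h2 A B a hAm hA hAe ha hab hBm hB hBs => ?_⟩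
  exact h n hn ρ (abs_le.2 ⟨h1, h2⟩) A B a ⟨hAm, hA, hAe⟩ ⟨⟨ha, hab⟩, hBm, hB, hBs⟩

end Pool.Agent.Results.MP_119458_pr.SmallCorrelation
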